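import Pool.Agent.Helper97.TN.St3
import Pool.Agent.Helper31.TN.M_G5

/-!
# Project TN (MP_6090f9_nt): module R2 (orthogonality for groups containing the alternating group)
-/

set_option autoImplicit false

namespace Pool.Agent.Helper80.TN

open Pool.Agent.Helper97.TN Pool.Agent.Helper95.TT Pool.Agent.Helper24.TF
open Pool.Agent.Helper31.TN
open scoped Classical

noncomputable section

/-- two points different from two given points -/
theorem exists_two_new {Y : Type} [Fintype Y] (hY : 6 ≤ Nat.card Y) (a b : Y) :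
    ∃ e f : Y, e ≠ f ∧ e ≠ a ∧ e ≠ b ∧ f ≠ a ∧ f ≠ b := by
  rw [Nat.card_eq_fintype_card] at hY
  have h1 : ∃ e : Y, e ∉ ({a, b} : Finset Y) := by
    by_contra hcon
    push Not at hcon
    have h4 : (Finset.univ : Finset Y) ⊆ {a, b} := fun w _ => hcon w
    have h5 := Finset.card_le_card h4
    have h6 : ({a, b} : Finset Y).card ≤ 2 := Finset.card_le_two
    rw [Finset.card_univ] at h5
    omega
  obtain ⟨e, he⟩ := h1
  have h2 : ∃ f : Y, f ∉ ({a, b, e} : Finset Y) := by
    by_contra hcon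
    push Not at hcon
    have h4 : (Finset.univ : Finset Y) ⊆ {a, b, e} := fun w _ => hcon w
    have h5 := Finset.card_le_card h4
    have h6 : ({a, b, e} : Finset Y).card ≤ 3 := Finset.card_le_three
    rw [Finset.card_univ] at h5
    omega
  obtain ⟨f, hf⟩ := h2
  simp only [Finset.mem_insert, Finset.mem_singleton, not_or] at he hf
  exact ⟨e, f, Ne.symm hf.2.2, he.1, he.2, hf.1, hf.2.1⟩

/-- the claim for groups containing the alternating group -/
theorem exists_swap_alt {G X Y : Type} [Group G] [Fintype Y] [MulAction G X] [MulAction G Y]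
    (hY : 6 ≤ Nat.card Y)
    (hsY : ∀ π : Equiv.Perm Y, Equiv.Perm.sign π = 1 → ∃ g : G, ∀ y, g • y = π y)
    (g₀ : G) (h0 : ∀ x : X, g₀ • x = x)
    (h1 : ¬ ∀ y : Y, g₀ • y = y) (c d : Y) (hcd : c ≠ d) :
    ∃ h : G, (∀ x : X, h • x = x) ∧ h • c = d ∧ h • d = c := by
  -- the group of the permutations induced by elements acting trivially on `X`
  set M : Subgroup (Equiv.Perm Y) := (MulAction.toPermHom G X).ker.map (MulAction.toPermHom G Y)
    with hM
  have hmemM : ∀ π : Equiv.Perm Y, π ∈ M ↔ ∃ g : G, (∀ x : X, g • x = x) ∧ ∀ y : Y, g • y = π y := by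
    intro π
    rw [hM, Subgroup.mem_map]
    constructor
    · rintro ⟨g, hg, hgπ⟩
      refine ⟨g, ?_, ?_⟩
      · intro x
        rw [MonoidHom.mem_ker] at hg
        have := congrArg (fun p : Equiv.Perm X => p x) hg
        simpa using this
      · intro y
        rw [← hgπ]
        rfl
    · rintro ⟨g, hgX, hgY⟩
      refine ⟨g, ?_, ?_⟩
      · rw [MonoidHom.mem_ker]
        ext x
        simpa using hgX x
      · ext y
        exact hgY y
  set A : Subgroup (Equiv.Perm Y) := alternatingGroup Y with hA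
  have hAmem : ∀ π : Equiv.Perm Y, π ∈ A ↔ Equiv.Perm.sign π = 1 := fun π => by
    rw [hA]
    exact Equiv.Perm.mem_alternatingGroup
  set N : Subgroup A := M.subgroupOf A with hN
  have hNn : N.Normal := by
    constructor
    intro n hn a
    rw [hN, Subgroup.mem_subgroupOf] at hn ⊢
    rw [hmemM] at hn ⊢
    obtain ⟨g, hgX, hgY⟩ := hn
    obtain ⟨t, ht⟩ := hsY (a : Equiv.Perm Y) ((hAmem _).1 a.2)
    refine ⟨t * g * t⁻¹, ?_, ?_⟩
    · intro x
      rw [mul_smul, mul_smul, hgX, smul_inv_smul]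
    · intro y
      rw [mul_smul, mul_smul]
      have e1 : t⁻¹ • y = ((a : Equiv.Perm Y)⁻¹) y := by
        rw [inv_smul_eq_iff, ht]
        simp
      rw [e1, hgY, ht]
      rfl
  have hNb : N ≠ ⊥ := by
    intro hbot
    push Not at h1
    obtain ⟨y, hy⟩ := h1
    obtain ⟨z, u, hzu, hzy, hzg, huy, hug⟩ := exists_two_new hY y (g₀ • y)
    set τ : Equiv.Perm Y := Equiv.swap y z * Equiv.swap z u with hτ
    have hsign : Equiv.Perm.sign τ = 1 := by
      rw [hτ, Equiv.Perm.sign_mul, Equiv.Perm.sign_swap (Ne.symm hzy), Equiv.Perm.sign_swap hzu]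
      rfl
    obtain ⟨t, ht⟩ := hsY τ hsign
    have h0i : ∀ x : X, g₀⁻¹ • x = x := by
      intro x
      rw [inv_smul_eq_iff, h0]
    have hρX : ∀ x : X, (g₀ * t * g₀⁻¹ * t⁻¹) • x = x := by
      intro x
      rw [mul_smul, mul_smul, mul_smul, h0i, smul_inv_smul, h0]
    set ρ : Equiv.Perm Y := MulAction.toPermHom G Y (g₀ * t * g₀⁻¹ * t⁻¹) with hρ
    have hρA : ρ ∈ A := by
      rw [hAmem, hρ]
      simp only [map_mul, map_inv]
      rw [mul_comm (Equiv.Perm.sign (MulAction.toPermHom G Y g₀)) (Equiv.Perm.sign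
        (MulAction.toPermHom G Y t)), mul_inv_cancel_right, mul_inv_cancel]
    have hρM : ρ ∈ M := (hmemM ρ).2 ⟨_, hρX, fun y => rfl⟩
    have hρN : (⟨ρ, hρA⟩ : A) ∈ N := by
      rw [hN, Subgroup.mem_subgroupOf]
      exact hρM
    rw [hbot, Subgroup.mem_bot] at hρN
    have hρ1 : ρ = 1 := congrArg Subtype.val hρN
    -- contradiction
    have hty : t • y = z := by
      rw [ht, hτ, Equiv.Perm.mul_apply, Equiv.swap_apply_of_ne_of_ne (Ne.symm hzy) (Ne.symm huy),
        Equiv.swap_apply_left]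
    have htg : t • (g₀ • y) = g₀ • y := by
      rw [ht, hτ, Equiv.Perm.mul_apply, Equiv.swap_apply_of_ne_of_ne (Ne.symm hzg) (Ne.symm hug),
        Equiv.swap_apply_of_ne_of_ne hy (Ne.symm hzg)]
    have h2 : (g₀ * t * g₀⁻¹ * t⁻¹) • (g₀ • y) = g₀ • y := by
      have := congrArg (fun p : Equiv.Perm Y => p (g₀ • y)) hρ1
      simpa [hρ] using this
    have h3 : t⁻¹ • (g₀ • y) = g₀ • y := by
      rw [inv_smul_eq_iff, htg]
    rw [mul_smul, mul_smul, mul_smul, h3, inv_smul_smul, hty] at h2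
    exact hzy (MulAction.injective g₀ h2)
  have hsimple : IsSimpleGroup A := by
    rw [hA]
    apply alternatingGroup.isSimpleGroup
    omega
  have hNt : N = ⊤ := (hNn.eq_bot_or_eq_top).resolve_left hNb
  obtain ⟨e, f, hef, hec, hed, hfc, hfd⟩ := exists_two_new hY c d
  set π : Equiv.Perm Y := Equiv.swap c d * Equiv.swap e f with hπ
  have hsign : Equiv.Perm.sign π = 1 := by
    rw [hπ, Equiv.Perm.sign_mul, Equiv.Perm.sign_swap hcd, Equiv.Perm.sign_swap hef]
    rfl
  have hπN : (⟨π, (hAmem π).2 hsign⟩ : A) ∈ N := by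
    rw [hNt]
    exact Subgroup.mem_top _
  rw [hN, Subgroup.mem_subgroupOf] at hπN
  obtain ⟨g, hgX, hgY⟩ := (hmemM π).1 hπN
  refine ⟨g, hgX, ?_, ?_⟩
  · rw [hgY, hπ, Equiv.Perm.mul_apply, Equiv.swap_apply_of_ne_of_ne (Ne.symm hec) (Ne.symm hfc),
      Equiv.swap_apply_left]
  · rw [hgY, hπ, Equiv.Perm.mul_apply, Equiv.swap_apply_of_ne_of_ne (Ne.symm hed) (Ne.symm hfd),
      Equiv.swap_apply_right]

/-- the claim for rich actions -/
theorem exists_swap_rich {G X Y : Type} [Group G] [Fintype Y] [MulAction G X] [MulAction G Y]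
    (hY : Rich G Y) (g₀ : G) (h0 : ∀ x : X, g₀ • x = x)
    (h1 : ¬ ∀ y : Y, g₀ • y = y) (c d : Y) (hcd : c ≠ d) :
    ∃ h : G, (∀ x : X, h • x = x) ∧ h • c = d ∧ h • d = c := by
  rcases hY with ⟨hY, hs⟩ | ⟨hY, hs⟩
  · exact exists_swap hY hs g₀ h0 h1 c d hcd
  · exact exists_swap_alt hY hs g₀ h0 h1 c d hcd

theorem hR2 : StR2 := by
  intro G _ _ X Y _ _ _ _ hX hY hne
  have : Fintype G := Fintype.ofFinite G
  have hz : ∀ (a b : X) (c d : Y), ∑ g : G, ee g a b * ee g c d = 0 := by
    intro a b c d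
    by_cases hab : a = b
    · subst hab
      simp [ee_self]
    by_cases hcd : c = d
    · subst hcd
      simp [ee_self]
    obtain ⟨g₀, hg⟩ := hne
    by_cases h0 : ∀ x : X, g₀ • x = x
    · have h1 : ¬ ∀ y : Y, g₀ • y = y := fun h => hg ⟨fun _ => h, fun _ => h0⟩
      obtain ⟨h, e1, e2, e3⟩ := exists_swap_rich (X := X) hY g₀ h0 h1 c d hcd
      exact sum_ee_zero a b c d h e1 e2 e3
    · have h1 : ∀ y : Y, g₀ • y = y := by
        by_contra hc
        exact hg ⟨fun h => absurd h h0, fun h => absurd h hc⟩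
      obtain ⟨h, e1, e2, e3⟩ := exists_swap_rich (X := Y) hX g₀ h1 h0 a b hab
      have h2 := sum_ee_zero c d a b h e1 e2 e3
      rw [← h2]
      apply Finset.sum_congr rfl
      intro g _
      ring
  rw [avg_eq]
  have h1 : ∑ g : G, la (fx X) g * la (fx Y) g = 0 := by
    have h2 : ∀ g : G, la (fx X) g * la (fx Y) g =
        (∑ a : X, ∑ b : X, ∑ c : Y, ∑ d : Y, ee g a b * ee g c d) / 4 := by
      intro g
      have h3 : ∑ a : X, ∑ b : X, ∑ c : Y, ∑ d : Y, ee g a b * ee g c d =
          (∑ a : X, ∑ b : X, ee g a b) * (∑ c : Y, ∑ d : Y, ee g c d) := by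
        rw [Finset.sum_mul]
        apply Finset.sum_congr rfl
        intro x _
        rw [Finset.sum_mul]
        apply Finset.sum_congr rfl
        intro y _
        rw [Finset.mul_sum]
        apply Finset.sum_congr rfl
        intro c _
        rw [Finset.mul_sum]
      rw [h3, la_eq, la_eq]
      ring
    rw [Finset.sum_congr rfl (fun g _ => h2 g), ← Finset.sum_div]
    have h4 : ∑ g : G, ∑ a : X, ∑ b : X, ∑ c : Y, ∑ d : Y, ee g a b * ee g c d = 0 := by
      rw [Finset.sum_comm]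
      apply Finset.sum_eq_zero
      intro a _
      rw [Finset.sum_comm]
      apply Finset.sum_eq_zero
      intro b _
      rw [Finset.sum_comm]
      apply Finset.sum_eq_zero
      intro c _
      rw [Finset.sum_comm]
      apply Finset.sum_eq_zero
      intro d _
      exact hz a b c d
    rw [h4, zero_div]
  rw [h1, zero_div]

end

end Pool.Agent.Helper80.TN
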